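import Pool.Agent.P.MP_cb63a5_lc.Hard
import Pool.Agent.P.MP_cb63a5_lc.Cub.InP

namespace Pool.Agent.Old.MP_cb63a5_lc.Dichotomy

open Pool.Agent.P.MP_cb63a5_lc

/-- The shortest alternating cycle problem is NP-complete, and its restriction to 3-regular
bipartite graphs is in `P`. -/
theorem result : N793a5b8e.IsCompleteFor N68a2faeb.NP SAC ∧ CubicSAC ∈ N68a2faeb.P :=
  ⟨⟨sac_mem_NP, sac_hard⟩, Cub.cubic_mem_P⟩

end Pool.Agent.Old.MP_cb63a5_lc.Dichotomy
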